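import Pool.Agent.Helper22.WC.Shift12a
import Pool.Agent.Helper22.WC.TorusGap
import Pool.Agent.Helper68.WC.L2Gap

/-!
# WC-13: the example

The free group on two generators acts by shifts on `[-1,1]^{F₂}`; the measure is the image of the
Haar measure of `Circle^{F₂}` under the real part.
-/

open MeasureTheory Topology
open scoped ENNReal

namespace Pool.Agent.Helper84.WC

/-- the space `[-1,1]^{F₂}` -/
def wc13M : Type := {x : FreeGroup (Fin 2) → ℝ // ∀ g, |x g| ≤ 1}

/-- the weight `2^{-|g|}` -/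
noncomputable def wc13w (g : FreeGroup (Fin 2)) : ℝ := (1 / 2) ^ g.norm

lemma wc13w_pos (g : FreeGroup (Fin 2)) : 0 < wc13w g := by
  unfold wc13w; positivity

lemma wc13w_le (g : FreeGroup (Fin 2)) : wc13w g ≤ 1 := by
  unfold wc13w
  exact pow_le_one₀ (by norm_num) (by norm_num)

lemma wc13w_one : wc13w 1 = 1 := by
  unfold wc13w
  simp

lemma wc13w_mul (s g : FreeGroup (Fin 2)) : wc13w g ≤ 2 ^ s.norm * wc13w (s⁻¹ * g) := by
  have h1 : (s⁻¹ * g).norm ≤ s.norm + g.norm := by
    have := FreeGroup.norm_mul_le s⁻¹ g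
    rwa [FreeGroup.norm_inv_eq] at this
  unfold wc13w
  have h2 : ((1 : ℝ) / 2) ^ (s.norm + g.norm) ≤ (1 / 2) ^ (s⁻¹ * g).norm :=
    pow_le_pow_of_le_one (by norm_num) (by norm_num) h1
  have h3 : (2 : ℝ) ^ s.norm * (1 / 2) ^ s.norm = 1 := by
    rw [← mul_pow]; norm_num
  calc ((1 : ℝ) / 2) ^ g.norm = 2 ^ s.norm * (1 / 2) ^ (s.norm + g.norm) := by
        rw [pow_add, ← mul_assoc, h3, one_mul]
    _ ≤ _ := by gcongr

lemma wc13w_finite {ε : ℝ} (hε : 0 < ε) : {g : FreeGroup (Fin 2) | ε ≤ wc13w g}.Finite := by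
  obtain ⟨n, hn⟩ := exists_pow_lt_of_lt_one hε (show (1 / 2 : ℝ) < 1 by norm_num)
  have h1 : {l : List (Fin 2 × Bool) | l.length < n}.Finite := List.finite_length_lt _ n
  apply (h1.preimage (f := FreeGroup.toWord) FreeGroup.toWord_injective.injOn).subset
  intro g hg
  by_contra hc
  simp only [Set.mem_preimage, Set.mem_ofPred_eq, not_lt] at hc
  have h2 : wc13w g ≤ (1 / 2) ^ n := by
    unfold wc13w
    exact pow_le_pow_of_le_one (by norm_num) (by norm_num) hc
  have h3 : ε ≤ wc13w g := hg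
  linarith

/-- the distance -/
noncomputable def wc13d (x y : wc13M) : ℝ := ⨆ g, wc13w g * |x.1 g - y.1 g|

lemma wc13_bdd (x y : wc13M) (g : FreeGroup (Fin 2)) : wc13w g * |x.1 g - y.1 g| ≤ 2 := by
  have h1 : |x.1 g - y.1 g| ≤ 2 := by
    have := abs_sub (x.1 g) (y.1 g)
    linarith [x.2 g, y.2 g]
  have := mul_le_mul (wc13w_le g) h1 (abs_nonneg _) zero_le_one
  linarith

lemma wc13_le (x y : wc13M) (g : FreeGroup (Fin 2)) : wc13w g * |x.1 g - y.1 g| ≤ wc13d x y :=
  le_ciSup (f := fun g => wc13w g * |x.1 g - y.1 g|)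
    ⟨2, by rintro _ ⟨g, rfl⟩; exact wc13_bdd x y g⟩ g

lemma wc13d_le {x y : wc13M} {C : ℝ} (h : ∀ g, wc13w g * |x.1 g - y.1 g| ≤ C) : wc13d x y ≤ C :=
  ciSup_le h

noncomputable instance : MetricSpace wc13M where
  dist := wc13d
  dist_self x := by
    show wc13d x x = 0
    simp [wc13d]
  dist_comm x y := by
    show wc13d x y = wc13d y x
    simp only [wc13d, abs_sub_comm]
  dist_triangle x y z := by
    show wc13d x z ≤ wc13d x y + wc13d y z
    apply wc13d_le
    intro g
    have h1 : |x.1 g - z.1 g| ≤ |x.1 g - y.1 g| + |y.1 g - z.1 g| := abs_sub_le _ _ _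
    calc wc13w g * |x.1 g - z.1 g| ≤ wc13w g * (|x.1 g - y.1 g| + |y.1 g - z.1 g|) := by
          have := (wc13w_pos g).le
          gcongr
      _ = wc13w g * |x.1 g - y.1 g| + wc13w g * |y.1 g - z.1 g| := mul_add _ _ _
      _ ≤ _ := add_le_add (wc13_le x y g) (wc13_le y z g)
  eq_of_dist_eq_zero := by
    intro x y h
    replace h : wc13d x y = 0 := h
    apply Subtype.ext
    funext g
    have h1 := wc13_le x y g
    rw [h] at h1
    have h2 : |x.1 g - y.1 g| ≤ 0 := by
      by_contra hc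
      push Not at hc
      have := mul_pos (wc13w_pos g) hc
      linarith
    have h3 := abs_nonpos_iff.mp h2
    linarith

lemma wc13_dist (x y : wc13M) : dist x y = wc13d x y := rfl

noncomputable instance : MeasurableSpace wc13M := borel wc13M

instance : BorelSpace wc13M := ⟨rfl⟩

instance : MulAction (FreeGroup (Fin 2)) wc13M where
  smul s x := ⟨fun g => x.1 (s⁻¹ * g), fun g => x.2 _⟩
  one_smul x := by
    apply Subtype.ext
    funext g
    show x.1 (1⁻¹ * g) = x.1 g
    simp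
  mul_smul s t x := by
    apply Subtype.ext
    funext g
    show x.1 ((s * t)⁻¹ * g) = x.1 (t⁻¹ * (s⁻¹ * g))
    simp [mul_assoc]

lemma wc13_smul (s : FreeGroup (Fin 2)) (x : wc13M) (g : FreeGroup (Fin 2)) :
    (s • x).1 g = x.1 (s⁻¹ * g) := rfl

/-- the real part -/
noncomputable def wc13E (z : FreeGroup (Fin 2) → Circle) : wc13M :=
  ⟨fun g => (z g : ℂ).re, fun g => by
    have h := Complex.abs_re_le_norm (z g : ℂ)
    simpa using h⟩

lemma wc13E_shift (s : FreeGroup (Fin 2)) (z : FreeGroup (Fin 2) → Circle) :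
    wc13E (shift s z) = s • wc13E z := rfl

lemma wc13E_surjective : Function.Surjective wc13E := by
  intro x
  refine ⟨fun g => Circle.exp (Real.arccos (x.1 g)), ?_⟩
  apply Subtype.ext
  funext g
  show ((Circle.exp (Real.arccos (x.1 g)) : Circle) : ℂ).re = x.1 g
  rw [Circle.coe_exp, Complex.exp_ofReal_mul_I_re]
  exact Real.cos_arccos (abs_le.mp (x.2 g)).1 (abs_le.mp (x.2 g)).2

lemma wc13E_continuous : Continuous wc13E := by
  rw [continuous_iff_continuousAt]
  intro z
  rw [ContinuousAt, Metric.tendsto_nhds]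
  intro ε hε
  have hfin := wc13w_finite (show (0 : ℝ) < ε / 4 by positivity)
  have h1 : ∀ g : FreeGroup (Fin 2), ∀ᶠ z' in 𝓝 z, |(z' g : ℂ).re - (z g : ℂ).re| < ε / 2 := by
    intro g
    have hc : Continuous fun z' : FreeGroup (Fin 2) → Circle => (z' g : ℂ).re :=
      Complex.continuous_re.comp (continuous_subtype_val.comp (continuous_apply g))
    have := Metric.tendsto_nhds.mp (hc.tendsto z) (ε / 2) (by positivity)
    simpa [Real.dist_eq] using this
  have h2 : ∀ᶠ z' in 𝓝 z, ∀ g ∈ {g : FreeGroup (Fin 2) | ε / 4 ≤ wc13w g},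
      |(z' g : ℂ).re - (z g : ℂ).re| < ε / 2 :=
    (Filter.eventually_all_finite hfin).mpr (fun g _ => h1 g)
  filter_upwards [h2] with z' hz'
  rw [wc13_dist]
  apply lt_of_le_of_lt _ (half_lt_self hε)
  apply wc13d_le
  intro g
  by_cases hg : ε / 4 ≤ wc13w g
  · have h3 := (hz' g hg).le
    have := mul_le_mul (wc13w_le g) h3 (abs_nonneg _) zero_le_one
    rw [one_mul] at this
    exact this
  · push Not at hg
    have h1 : |(wc13E z').1 g - (wc13E z).1 g| ≤ 2 := by
      have := abs_sub ((wc13E z').1 g) ((wc13E z).1 g)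
      linarith [(wc13E z').2 g, (wc13E z).2 g]
    have := mul_le_mul hg.le h1 (abs_nonneg _) (by positivity)
    linarith

instance : CompactSpace wc13M := by
  have := isCompact_range wc13E_continuous
  rw [wc13E_surjective.range_eq] at this
  exact ⟨this⟩

/-- the measure -/
noncomputable def wc13m : Measure wc13M := haarT.map wc13E

lemma wc13E_measurable : Measurable wc13E := wc13E_continuous.measurable

instance : IsProbabilityMeasure wc13m :=
  Measure.isProbabilityMeasure_map wc13E_measurable.aemeasurable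

instance : wc13m.IsOpenPosMeasure := wc13E_continuous.isOpenPosMeasure_map wc13E_surjective

lemma wc13_smul_lip (s : FreeGroup (Fin 2)) :
    LipschitzWith (2 ^ s.norm) (fun x : wc13M => s • x) := by
  apply LipschitzWith.of_dist_le_mul
  intro x y
  rw [wc13_dist, wc13_dist]
  apply wc13d_le
  intro g
  rw [wc13_smul, wc13_smul]
  have h1 := wc13_le x y (s⁻¹ * g)
  have h2 := wc13w_mul s g
  push_cast
  calc wc13w g * |x.1 (s⁻¹ * g) - y.1 (s⁻¹ * g)|
      ≤ (2 ^ s.norm * wc13w (s⁻¹ * g)) * |x.1 (s⁻¹ * g) - y.1 (s⁻¹ * g)| := by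
        have := abs_nonneg (x.1 (s⁻¹ * g) - y.1 (s⁻¹ * g))
        gcongr
    _ = 2 ^ s.norm * (wc13w (s⁻¹ * g) * |x.1 (s⁻¹ * g) - y.1 (s⁻¹ * g)|) := by ring
    _ ≤ _ := by gcongr

lemma wc13_smul_mp (s : FreeGroup (Fin 2)) :
    MeasurePreserving (fun x : wc13M => s • x) wc13m wc13m := by
  have hm : Measurable (fun x : wc13M => s • x) := (wc13_smul_lip s).continuous.measurable
  refine ⟨hm, ?_⟩
  have h1 := (shift_measurePreserving s).map_eq
  unfold wc13m
  rw [Measure.map_map hm wc13E_measurable]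
  have h2 : ((fun x : wc13M => s • x) ∘ wc13E) = wc13E ∘ shift s := rfl
  rw [h2, ← Measure.map_map wc13E_measurable (shift_measurePreserving s).measurable, h1]

lemma wc13_torus_gap (f : (FreeGroup (Fin 2) → Circle) → ℂ) (hf : MemLp f 2 haarT)
    (h0 : ∫ x, f x ∂haarT = 0) :
    ∃ s ∈ gens, ENNReal.ofReal (1 / 4) * eLpNorm f 2 haarT ≤
      eLpNorm (fun x => f (shift s⁻¹ x) - f x) 2 haarT :=
  wc12_torus_gap_of (fun _ _ hfree φ hφ => l2_gap hfree φ hφ) free_finsupp
    shift_measurePreserving f hf h0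

lemma wc13_gap (f : wc13M → ℂ) (hf : MemLp f 2 wc13m) (h0 : ∫ x, f x ∂wc13m = 0) :
    ∃ s ∈ gens, ENNReal.ofReal (1 / 4) * eLpNorm f 2 wc13m ≤
      eLpNorm (fun x => f (s⁻¹ • x) - f x) 2 wc13m := by
  have hE := wc13E_measurable.aemeasurable (μ := haarT)
  have h1 : MemLp (f ∘ wc13E) 2 haarT := (memLp_map_measure_iff hf.1 hE).mp hf
  have h2 : ∫ x, (f ∘ wc13E) x ∂haarT = 0 := by
    rw [← h0]
    exact (integral_map hE hf.1).symm
  obtain ⟨s, hs, h3⟩ := wc13_torus_gap _ h1 h2
  refine ⟨s, hs, ?_⟩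
  have h4 : eLpNorm f 2 wc13m = eLpNorm (f ∘ wc13E) 2 haarT := eLpNorm_map_measure hf.1 hE
  have h5 : eLpNorm (fun x => f (s⁻¹ • x) - f x) 2 wc13m =
      eLpNorm ((fun x => f (s⁻¹ • x) - f x) ∘ wc13E) 2 haarT := by
    refine eLpNorm_map_measure ?_ hE
    exact (hf.1.comp_measurePreserving (wc13_smul_mp s⁻¹)).sub hf.1
  rw [h4, h5]
  exact h3

lemma wc13_erg (A : Set wc13M) (hA : MeasurableSet A)
    (hinv : ∀ g : FreeGroup (Fin 2), (fun x : wc13M => g • x) ⁻¹' A = A) :
    wc13m A = 0 ∨ wc13m A = 1 := by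
  set c : ℂ := (wc13m.real A : ℂ) with hc
  let f : wc13M → ℂ := fun x => A.indicator (fun _ => (1 : ℂ)) x - c
  have hf1 : MemLp (A.indicator (fun _ => (1 : ℂ))) 2 wc13m :=
    memLp_indicator_const 2 hA 1 (Or.inr (measure_ne_top _ _))
  have hf : MemLp f 2 wc13m := hf1.sub (memLp_const c)
  have h0 : ∫ x, f x ∂wc13m = 0 := by
    have e1 : ∫ x, f x ∂wc13m = ∫ x, A.indicator (fun _ => (1 : ℂ)) x ∂wc13m
        - ∫ x, c ∂wc13m :=
      integral_sub (hf1.integrable one_le_two) (integrable_const c)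
    rw [e1, integral_indicator_const _ hA, integral_const]
    simp [hc]
  obtain ⟨s, -, h1⟩ := wc13_gap f hf h0
  have h2 : (fun x => f (s⁻¹ • x) - f x) = fun _ => 0 := by
    funext x
    have h3 : (s⁻¹ • x ∈ A) ↔ x ∈ A := by
      have := Set.ext_iff.mp (hinv s⁻¹) x
      exact this
    by_cases hx : x ∈ A
    · simp [f, Set.indicator_of_mem hx, Set.indicator_of_mem (h3.mpr hx)]
    · simp [f, Set.indicator_of_notMem hx, Set.indicator_of_notMem (fun h => hx (h3.mp h))]
  rw [h2] at h1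
  have h3 : eLpNorm (fun _ : wc13M => (0 : ℂ)) 2 wc13m = 0 := eLpNorm_zero
  rw [h3] at h1
  have h4 : eLpNorm f 2 wc13m = 0 := by
    have h5 := nonpos_iff_eq_zero.mp h1
    rcases mul_eq_zero.mp h5 with h6 | h6
    · rw [ENNReal.ofReal_eq_zero] at h6
      norm_num at h6
    · exact h6
  have h5 : f =ᵐ[wc13m] 0 := (eLpNorm_eq_zero_iff hf.1 (by norm_num)).mp h4
  obtain ⟨x, hx⟩ := h5.exists
  simp only [f, Pi.zero_apply] at hx
  have h6 : A.indicator (fun _ => (1 : ℂ)) x = c := by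
    linear_combination hx
  by_cases hxA : x ∈ A
  · right
    rw [Set.indicator_of_mem hxA] at h6
    have h7 : wc13m.real A = 1 := by
      have : ((wc13m.real A : ℝ) : ℂ) = ((1 : ℝ) : ℂ) := by rw [← hc, ← h6]; simp
      exact_mod_cast this
    rw [Measure.real, ENNReal.toReal_eq_one_iff] at h7
    exact h7
  · left
    rw [Set.indicator_of_notMem hxA] at h6
    have h7 : wc13m.real A = 0 := by
      have : ((wc13m.real A : ℝ) : ℂ) = ((0 : ℝ) : ℂ) := by rw [← hc, ← h6]; simp
      exact_mod_cast this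
    rw [Measure.real, ENNReal.toReal_eq_zero_iff] at h7
    rcases h7 with h7 | h7
    · exact h7
    · exact absurd h7 (measure_ne_top _ _)

lemma wc13_re_finite (a : ℝ) : {c : Circle | (c : ℂ).re = a}.Finite := by
  have h1 : ({⟨a, √(1 - a ^ 2)⟩, ⟨a, -√(1 - a ^ 2)⟩} : Set ℂ).Finite := Set.toFinite _
  apply (h1.preimage (f := fun c : Circle => (c : ℂ)) Circle.coe_injective.injOn).subset
  intro c hc
  have h2 : (c : ℂ).re = a := hc
  have h3 : (c : ℂ).re ^ 2 + (c : ℂ).im ^ 2 = 1 := by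
    have := Circle.normSq_coe c
    rw [Complex.normSq_apply] at this
    nlinarith
  have h4 : (c : ℂ).im ^ 2 = 1 - a ^ 2 := by rw [← h2]; linarith
  have h5 : 0 ≤ 1 - a ^ 2 := by rw [← h4]; positivity
  have h6 : (c : ℂ).im ^ 2 = √(1 - a ^ 2) ^ 2 := by rw [Real.sq_sqrt h5, h4]
  simp only [Set.mem_preimage, Set.mem_insert_iff, Set.mem_singleton_iff]
  rcases sq_eq_sq_iff_eq_or_eq_neg.mp h6 with h7 | h7
  · left; exact Complex.ext h2 h7
  · right; exact Complex.ext h2 h7

lemma wc13_singleton (x : wc13M) : wc13m {x} = 0 := by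
  -- the first coordinate
  let p : (FreeGroup (Fin 2) → Circle) →* Circle := Pi.evalMonoidHom (fun _ => Circle) 1
  have hp : Continuous p := continuous_apply (1 : FreeGroup (Fin 2))
  have hps : Function.Surjective p := fun c => ⟨fun _ => c, rfl⟩
  have hH : (haarT.map p).IsHaarMeasure := Measure.isHaarMeasure_map_of_isFiniteMeasure haarT p hp hps
  have hnt : Nontrivial Circle := ⟨1, -1, fun h => by
    have h2 : ((1 : Circle) : ℂ) = ((-1 : Circle) : ℂ) := by rw [← h]
    rw [Circle.coe_one, Circle.coe_neg, Circle.coe_one] at h2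
    norm_num at h2⟩
  have hnb : (𝓝[≠] (1 : Circle)).NeBot := inferInstance
  have hna : NullSingletonClass (haarT.map p) := inferInstance
  have h1 : (haarT.map p) {c : Circle | (c : ℂ).re = x.1 1} = 0 :=
    (wc13_re_finite _).measure_zero _
  have hms : MeasurableSet {c : Circle | (c : ℂ).re = x.1 1} := (wc13_re_finite _).measurableSet
  rw [Measure.map_apply hp.measurable hms] at h1
  unfold wc13m
  rw [Measure.map_apply wc13E_measurable (measurableSet_singleton x)]
  refine measure_mono_null ?_ h1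
  intro z hz
  have h2 : wc13E z = x := hz
  show ((z 1 : Circle) : ℂ).re = x.1 1
  rw [← h2]
  rfl

lemma wc13_upper :
    Filter.Tendsto (fun R : ℝ => ⨆ x : wc13M, wc13m (Metric.ball x R)) (𝓝[>] 0) (𝓝 0) := by
  rw [ENNReal.tendsto_nhds_zero]
  intro ε hε
  have h1 : ∀ x : wc13M, ∃ U : Set wc13M, {x} ⊆ U ∧ IsOpen U ∧ wc13m U < ε := by
    intro x
    exact Set.exists_isOpen_lt_of_lt {x} ε (by rw [wc13_singleton]; exact hε)
  choose U hU1 hU2 hU3 using h1
  obtain ⟨δ, hδ, h2⟩ := lebesgue_number_lemma_of_metric (s := (Set.univ : Set wc13M))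
    isCompact_univ hU2 (fun x _ => Set.mem_iUnion.mpr ⟨x, hU1 x rfl⟩)
  have h3 : ∀ᶠ R : ℝ in 𝓝[>] 0, R < δ :=
    (eventually_lt_nhds hδ).filter_mono nhdsWithin_le_nhds
  filter_upwards [h3] with R hR
  apply iSup_le
  intro x
  obtain ⟨y, hy⟩ := h2 x (Set.mem_univ x)
  exact (measure_mono ((Metric.ball_subset_ball hR.le).trans hy)).trans (hU3 y).le

/-- the radial contraction -/
noncomputable def wc13s (c : ℝ) (x : wc13M) : wc13M :=
  ⟨fun g => max 0 (min c 1) * x.1 g, fun g => by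
    rw [abs_mul]
    have h1 : |max 0 (min c 1)| ≤ 1 := by
      rw [abs_of_nonneg (le_max_left _ _)]
      exact max_le zero_le_one (min_le_right _ _)
    have := mul_le_mul h1 (x.2 g) (abs_nonneg _) zero_le_one
    linarith⟩

lemma wc13s_apply {c : ℝ} (h0 : 0 ≤ c) (h1 : c ≤ 1) (x : wc13M) (g : FreeGroup (Fin 2)) :
    (wc13s c x).1 g = c * x.1 g := by
  show max 0 (min c 1) * x.1 g = c * x.1 g
  rw [min_eq_left h1, max_eq_right h0]

lemma wc13_radial : Radial (FreeGroup (Fin 2)) wc13M wc13s where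
  one x := by
    apply Subtype.ext
    funext g
    rw [wc13s_apply zero_le_one le_rfl, one_mul]
  smul g c x := rfl
  contr c h0 h1 x y := by
    rw [wc13_dist, wc13_dist]
    apply wc13d_le
    intro g
    rw [wc13s_apply h0 h1, wc13s_apply h0 h1, ← mul_sub, abs_mul, abs_of_nonneg h0]
    have := wc13_le x y g
    calc wc13w g * (c * |x.1 g - y.1 g|) = c * (wc13w g * |x.1 g - y.1 g|) := by ring
      _ ≤ _ := by gcongr
  lip c c' h0 h1 h0' h1' x := by
    rw [wc13_dist]
    apply wc13d_le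
    intro g
    rw [wc13s_apply h0 h1, wc13s_apply h0' h1', ← sub_mul, abs_mul]
    have h2 : |c - c'| * |x.1 g| ≤ |c - c'| * 1 :=
      mul_le_mul_of_nonneg_left (x.2 g) (abs_nonneg _)
    have h3 := mul_le_mul (wc13w_le g) h2 (by positivity) zero_le_one
    linarith

theorem exists_example :
    ∃ (M : Type) (_ : MetricSpace M) (_ : CompactSpace M) (_ : MeasurableSpace M)
      (_ : BorelSpace M) (_ : MulAction (FreeGroup (Fin 2)) M) (m : Measure M)
      (σ : ℝ → M → M), GapAction (FreeGroup (Fin 2)) gens M m ∧ m.IsOpenPosMeasure ∧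
      (∀ x y : M, dist x y ≤ 2) ∧ Radial (FreeGroup (Fin 2)) M σ := by
  refine ⟨wc13M, inferInstance, inferInstance, inferInstance, inferInstance, inferInstance, wc13m,
    wc13s, ?_, inferInstance, ?_, wc13_radial⟩
  · refine ⟨measure_univ, ?_, ?_, wc13_upper, fun g => ⟨_, wc13_smul_lip g⟩, wc13_smul_mp,
      wc13_erg, ⟨1 / 4, by norm_num, wc13_gap⟩⟩
    · intro s hs
      simp only [gens, Finset.mem_insert, Finset.mem_singleton] at hs ⊢
      rcases hs with rfl | rfl | rfl | rfl <;> simp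
    · rw [eq_top_iff, ← FreeGroup.closure_range_of]
      apply Subgroup.closure_mono
      rintro _ ⟨i, rfl⟩
      fin_cases i <;> simp [gens]
  · intro x y
    rw [wc13_dist]
    exact wc13d_le (wc13_bdd x y)

end Pool.Agent.Helper84.WC
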